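import Pool.Agent.K3h84.GP.Slow
import Pool.Agent.K3h84.GP.Pow

/-! Slowly curved sequences along long progressions (helper84). -/

set_option autoImplicit false

namespace Pool.Agent.K3h84.SP

open Finset Filter
open Pool.Agent.K3h84.GP

/-- pigeonhole -/
theorem arcs (C : ℕ) (S : Finset ℕ) (e : ℕ → ℝ) (he : ∀ n ∈ S, |e n| ≤ C) :
    ∃ S' ⊆ S, (S.card : ℝ) ≤ (16 * C + 1) * S'.card ∧ ∀ n ∈ S', ∀ n' ∈ S', |e n - e n'| ≤ 1 / 8 := by
  obtain ⟨φ, hφ⟩ : ∃ φ : ℕ → ℕ, φ = fun n => (⌊8 * e n⌋ + 8 * C).toNat := ⟨_, rfl⟩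
  have hfl : ∀ n ∈ S, -(8 * (C : ℤ)) ≤ ⌊8 * e n⌋ ∧ ⌊8 * e n⌋ ≤ 8 * (C : ℤ) := by
    intro n hn
    have h1 := abs_le.1 (he n hn)
    constructor
    · rw [Int.le_floor]
      push_cast
      linarith [h1.1]
    · have h2 : (⌊8 * e n⌋ : ℝ) ≤ 8 * (C : ℝ) := (Int.floor_le _).trans (by linarith [h1.2])
      exact_mod_cast h2
  have hmap : ∀ n ∈ S, φ n ∈ range (16 * C + 1) := by
    intro n hn
    obtain ⟨h1, h2⟩ := hfl n hn
    rw [hφ, mem_range]
    show (⌊8 * e n⌋ + 8 * C).toNat < _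
    omega
  obtain ⟨c, hc, hmax⟩ := exists_max_image (range (16 * C + 1)) (fun c => (S.filter (fun n => φ n = c)).card)
    ⟨0, mem_range.2 (by omega)⟩
  refine ⟨S.filter (fun n => φ n = c), filter_subset _ _, ?_, ?_⟩
  · have h1 := card_eq_sum_card_fiberwise (f := φ) (s := S) (t := range (16 * C + 1)) hmap
    have h2 : S.card ≤ (16 * C + 1) * (S.filter (fun n => φ n = c)).card := by
      rw [h1]
      refine (sum_le_card_nsmul _ _ _ hmax).trans (le_of_eq ?_)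
      rw [card_range, smul_eq_mul]
    exact_mod_cast h2
  · intro n hn n' hn'
    rw [mem_filter] at hn hn'
    have h1 := hfl n hn.1
    have h2 := hfl n' hn'.1
    have h3 : ⌊8 * e n⌋ = ⌊8 * e n'⌋ := by
      have h4 : φ n = φ n' := hn.2.trans hn'.2.symm
      rw [hφ] at h4
      have h5 : (⌊8 * e n⌋ + 8 * C).toNat = (⌊8 * e n'⌋ + 8 * C).toNat := h4
      omega
    have h4 := Int.abs_sub_lt_one_of_floor_eq_floor h3
    have e1 : 8 * e n - 8 * e n' = 8 * (e n - e n') := by ring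
    rw [e1, abs_mul, abs_of_pos (by norm_num : (0 : ℝ) < 8)] at h4
    linarith

/-- second differences of step `D` -/
theorem sec_step (f : ℕ → ℝ) (ρ : ℝ) (hρ : 0 ≤ ρ) (x D : ℕ)
    (h : ∀ n, x ≤ n → n + 2 ≤ x + 2 * D → |f (n + 2) - 2 * f (n + 1) + f n| ≤ ρ) :
    |f (x + 2 * D) - 2 * f (x + D) + f x| ≤ 6 * ρ * (D : ℝ) ^ 2 := by
  have h1 := near_linear f ρ hρ x (2 * D) h (2 * D) le_rfl
  have h2 := near_linear f ρ hρ x (2 * D) h D (by omega)
  push_cast at h1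
  rw [abs_le] at h1 h2 ⊢
  constructor <;> nlinarith [h1.1, h1.2, h2.1, h2.2]

/-- integers near a sequence with small second differences -/
theorem ap_core {J Y : ℕ} {H : ℕ → Prop} (hH : SynB J Y H) (C t : ℕ) (c₀ : ℝ) (ht : 1 ≤ (t : ℝ) * c₀)
    (K : ℕ → ℕ) (F : ℕ → ℝ) (hpos : C + 1 ≤ F 0) (hinc : ∀ j, j < t → c₀ ≤ F (j + 1) - F j)
    (hsec : ∀ j, j + 2 < J + t + 2 → |F (j + 2) - 2 * F (j + 1) + F j| ≤ 1 / 4)
    (hk : |(K 0 : ℝ) - F 0| ≤ C) (hHn : ∀ j < J, ¬ H (K j))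
    (he : ∀ i < J + t + 2, ∀ j < J + t + 2, |((K i : ℝ) - F i) - (K j - F j)| ≤ 1 / 8)
    (hY : K 1 ≤ Y) : False := by
  obtain ⟨Δ, hΔ⟩ : ∃ Δ : ℤ, Δ = (K 1 : ℤ) - K 0 := ⟨_, rfl⟩
  have hstep : ∀ j, j + 2 < J + t + 2 → (K (j + 2) : ℤ) - 2 * K (j + 1) + K j = 0 := by
    intro j hj
    have h1 := hsec j hj
    have h2 := he (j + 2) (by omega) (j + 1) (by omega)
    have h3 := he (j + 1) (by omega) j (by omega)
    rw [abs_le] at h1 h2 h3
    have h4 : (-1 : ℝ) < (K (j + 2) : ℝ) - 2 * K (j + 1) + K j := by linarith [h1.1, h2.1, h3.2]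
    have h5 : (K (j + 2) : ℝ) - 2 * K (j + 1) + K j < 1 := by linarith [h1.2, h2.2, h3.1]
    have h6 : (-1 : ℤ) < (K (j + 2) : ℤ) - 2 * K (j + 1) + K j := by exact_mod_cast h4
    have h7 : (K (j + 2) : ℤ) - 2 * K (j + 1) + K j < 1 := by exact_mod_cast h5
    omega
  have hlin : ∀ j, j + 1 < J + t + 2 → (K j : ℤ) = K 0 + j * Δ ∧ (K (j + 1) : ℤ) = K 0 + (j + 1) * Δ := by
    intro j
    induction j with
    | zero =>
      intro _
      constructor
      · simp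
      · rw [hΔ]
        push_cast
        ring
    | succ j ih =>
      intro hj
      obtain ⟨h1, h2⟩ := ih (by omega)
      refine ⟨by rw [h2]; push_cast; ring, ?_⟩
      have h3 := hstep j (by omega)
      have e1 : j + 1 + 1 = j + 2 := by ring
      rw [e1]
      push_cast
      linarith
  have hF : ∀ i, i ≤ t → F 0 + i * c₀ ≤ F i := by
    intro i
    induction i with
    | zero => intro _; simp
    | succ i ih =>
      intro hi
      have h1 := ih (by omega)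
      have h2 := hinc i (by omega)
      push_cast
      linarith
  have hΔ1 : 1 ≤ Δ := by
    have h1 := (hlin t (by omega)).1
    have h2 := hF t le_rfl
    have h3 := (abs_le.1 (he t (by omega) 0 (by omega))).1
    have h4 : (0 : ℝ) < (K t : ℝ) - K 0 := by linarith
    have h5 : (0 : ℤ) < (K t : ℤ) - K 0 := by exact_mod_cast h4
    rw [h1] at h5
    have h6 : 0 < (t : ℤ) * Δ := by linarith
    have h7 : 0 < Δ := by
      by_contra hcon
      push Not at hcon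
      have := mul_nonpos_of_nonneg_of_nonpos (Int.natCast_nonneg t) hcon
      omega
    omega
  obtain ⟨d, hd⟩ : ∃ d : ℕ, (d : ℤ) = Δ := ⟨Δ.toNat, Int.toNat_of_nonneg (by omega)⟩
  have hK0 : 1 ≤ K 0 := by
    have h1 := (abs_le.1 hk).1
    have h2 : (1 : ℝ) ≤ K 0 := by linarith
    exact_mod_cast h2
  obtain ⟨l, hl, hHl⟩ := hH (K 0) d hK0 (by omega) (by omega)
  apply hHn l hl
  have h1 := (hlin l (by omega)).1
  have h2 : K 0 + l * d = K l := by
    have : ((K 0 + l * d : ℕ) : ℤ) = (K l : ℤ) := by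
      push_cast
      rw [h1, hd]
    exact_mod_cast this
  rw [h2] at hHl
  exact hHl

/-- the conditions on `f` in the window `(A, A + X]` -/
structure Slow (C : ℕ) (c₀ ρ : ℝ) (A X Y : ℕ) (f : ℕ → ℝ) : Prop where
  pos : ∀ n, A < n → n ≤ A + X → C + 1 ≤ f n
  mono : (∀ n, A < n → n + 1 ≤ A + X → c₀ ≤ f (n + 1) - f n) ∨
    (∀ n, A < n → n + 1 ≤ A + X → c₀ ≤ f n - f (n + 1))
  sec : ∀ n, A < n → n + 2 ≤ A + X → |f (n + 2) - 2 * f (n + 1) + f n| ≤ ρ
  size : ∀ n, A < n → n ≤ A + X → f n + C ≤ Y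

theorem grow (c₀ : ℝ) (A X : ℕ) (f : ℕ → ℝ) (hinc : ∀ n, A < n → n + 1 ≤ A + X → c₀ ≤ f (n + 1) - f n) :
    ∀ i n, A < n → n + i ≤ A + X → f n + i * c₀ ≤ f (n + i) := by
  intro i
  induction i with
  | zero => intro n _ _; simp
  | succ i ih =>
    intro n hn hi
    have h1 := ih n hn (by omega)
    have h2 := hinc (n + i) (by omega) (by omega)
    have e1 : n + (i + 1) = n + i + 1 := by ring
    rw [e1]
    push_cast
    linarith

/-- no long progressions with small steps -/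
theorem no_ap {J Y : ℕ} {H : ℕ → Prop} (hH : SynB J Y H) (C t : ℕ) (c₀ ρ : ℝ) (hc₀ : 0 < c₀)
    (ht : 1 ≤ (t : ℝ) * c₀) (hρ : 0 ≤ ρ) (A X : ℕ) (f : ℕ → ℝ) (hf : Slow C c₀ ρ A X Y f)
    (k : ℕ → ℕ) (S : Finset ℕ) (hS : S ⊆ Ioc A (A + X))
    (hk : ∀ n ∈ S, |(k n : ℝ) - f n| ≤ C ∧ ¬ H (k n))
    (he : ∀ n ∈ S, ∀ n' ∈ S, |((k n : ℝ) - f n) - (k n' - f n')| ≤ 1 / 8)
    (x D : ℕ) (hD : 1 ≤ D) (hDρ : 6 * ρ * (D : ℝ) ^ 2 ≤ 1 / 4) (hx : ∀ j < J + t + 2, x + j * D ∈ S) : False := by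
  have hwin : ∀ j < J + t + 2, A < x + j * D ∧ x + j * D ≤ A + X := fun j hj => by
    have := hS (hx j hj)
    rwa [mem_Ioc] at this
  have hDr : (1 : ℝ) ≤ D := by exact_mod_cast hD
  have hsec : ∀ j, j + 2 < J + t + 2 →
      |f (x + (j + 2) * D) - 2 * f (x + (j + 1) * D) + f (x + j * D)| ≤ 1 / 4 := by
    intro j hj
    have h2 := hwin j (by omega)
    have h3 := hwin (j + 2) (by omega)
    have e1 : x + (j + 1) * D = x + j * D + D := by ring
    have e2 : x + (j + 2) * D = x + j * D + 2 * D := by ring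
    rw [e2] at h3
    rw [e1, e2]
    exact (sec_step f ρ hρ (x + j * D) D (fun n hn hn2 => hf.sec n (by omega) (by omega))).trans hDρ
  have hKY : ∀ j < J + t + 2, k (x + j * D) ≤ Y := by
    intro j hj
    have h1 := (abs_le.1 (hk _ (hx j hj)).1).2
    have h2 := hf.size _ (hwin j hj).1 (hwin j hj).2
    have h3 : ((k (x + j * D) : ℕ) : ℝ) ≤ Y := by linarith
    exact_mod_cast h3
  rcases hf.mono with hinc | hdec
  · have hgrow := grow c₀ A X f hinc
    refine ap_core hH C t c₀ ht (fun j => k (x + j * D)) (fun j => f (x + j * D)) ?_ ?_ hsec ?_ ?_ ?_ (hKY 1 (by omega))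
    · exact hf.pos _ (hwin 0 (by omega)).1 (hwin 0 (by omega)).2
    · intro j hj
      show c₀ ≤ f (x + (j + 1) * D) - f (x + j * D)
      have h2 := hwin j (by omega)
      have h3 := hwin (j + 1) (by omega)
      have e1 : x + (j + 1) * D = x + j * D + D := by ring
      rw [e1] at h3 ⊢
      have h4 := hgrow D (x + j * D) h2.1 h3.2
      nlinarith
    · exact (hk _ (hx 0 (by omega))).1
    · intro j hj
      exact (hk _ (hx j (by omega))).2
    · intro i hi j hj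
      exact he _ (hx i hi) _ (hx j hj)
  · have hgrow := grow c₀ A X (fun n => - f n) (fun n h1 h2 => by have := hdec n h1 h2; linarith)
    obtain ⟨M, hM⟩ : ∃ M : ℕ, M = J + t + 1 := ⟨_, rfl⟩
    refine ap_core hH C t c₀ ht (fun j => k (x + (M - j) * D)) (fun j => f (x + (M - j) * D)) ?_ ?_ ?_ ?_ ?_ ?_
      (hKY (M - 1) (by omega))
    · exact hf.pos _ (hwin (M - 0) (by omega)).1 (hwin (M - 0) (by omega)).2
    · intro j hj
      show c₀ ≤ f (x + (M - (j + 1)) * D) - f (x + (M - j) * D)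
      have h2 := hwin (M - (j + 1)) (by omega)
      have h3 := hwin (M - j) (by omega)
      have e0 : M - j = M - (j + 1) + 1 := by omega
      have e1 : x + (M - j) * D = x + (M - (j + 1)) * D + D := by rw [e0]; ring
      rw [e1] at h3 ⊢
      have h4 := hgrow D (x + (M - (j + 1)) * D) h2.1 h3.2
      nlinarith
    · intro j hj
      show |f (x + (M - (j + 2)) * D) - 2 * f (x + (M - (j + 1)) * D) + f (x + (M - j) * D)| ≤ 1 / 4
      have h1 := hsec (M - (j + 2)) (by omega)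
      have e1 : M - (j + 2) + 2 = M - j := by omega
      have e2 : M - (j + 2) + 1 = M - (j + 1) := by omega
      rw [e1, e2] at h1
      have e3 : f (x + (M - (j + 2)) * D) - 2 * f (x + (M - (j + 1)) * D) + f (x + (M - j) * D) =
          f (x + (M - j) * D) - 2 * f (x + (M - (j + 1)) * D) + f (x + (M - (j + 2)) * D) := by ring
      rw [e3]
      exact h1
    · exact (hk _ (hx (M - 0) (by omega))).1
    · intro j hj
      exact (hk _ (hx (M - j) (by omega))).2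
    · intro i hi j hj
      exact he _ (hx (M - i) (by omega)) _ (hx (M - j) (by omega))

/-- logarithmic steps are small -/
theorem log_small (B : ℕ) : ∃ x₀ : ℕ, 1 ≤ x₀ ∧ ∀ x : ℕ, x₀ ≤ x → ∀ D : ℝ, 0 ≤ D →
    D ≤ Real.log x ^ B → 6 * (Real.log x ^ (2 * B + 1))⁻¹ * D ^ 2 ≤ 1 / 4 := by
  have h2 := (Real.tendsto_log_atTop.comp tendsto_natCast_atTop_atTop).eventually_ge_atTop (24 : ℝ)
  obtain ⟨x₀, hx₀⟩ := eventually_atTop.1 h2
  refine ⟨max x₀ 1, le_max_right _ _, fun x hx D hD0 hD => ?_⟩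
  have h3 : 24 ≤ Real.log (x : ℝ) := hx₀ x ((le_max_left _ _).trans hx)
  have hl : 0 < Real.log (x : ℝ) := by linarith
  have h5 : D ^ 2 ≤ Real.log (x : ℝ) ^ (2 * B) := by
    calc D ^ 2 ≤ (Real.log (x : ℝ) ^ B) ^ 2 := pow_le_pow_left₀ hD0 hD 2
      _ = Real.log (x : ℝ) ^ (2 * B) := by rw [← pow_mul, mul_comm]
  have h6 : (Real.log (x : ℝ) ^ (2 * B + 1))⁻¹ * D ^ 2 ≤ 1 / 24 := by
    rw [inv_mul_le_iff₀ (by positivity)]
    have h7 : 0 < Real.log (x : ℝ) ^ (2 * B) := by positivity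
    have h8 : Real.log (x : ℝ) ^ (2 * B + 1) = Real.log (x : ℝ) ^ (2 * B) * Real.log (x : ℝ) := pow_succ _ _
    rw [h8]
    nlinarith
  linarith

end Pool.Agent.K3h84.SP
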