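import Pool.Agent.Y843.HS.Top
import Pool.Agent.Y677.RSZ.Top
import Pool.Agent.Y866.PP.Prim2
import Pool.Agent.K3h84.SP.Ap

/-! Slowly curved sequences along sifted sets and primes (helper84). -/

set_option autoImplicit false

namespace Pool.Agent.K3h84.SP

open Finset Filter
open Pool.Agent.K3h84.GP

open Classical in
/-- **sifted sets** -/
theorem sifted (J C r : ℕ) (κ δ c₀ : ℝ) (hκ : 0 < κ) (hδ : 0 < δ) (hc₀ : 0 < c₀) :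
    ∃ B' X₀ : ℕ, ∀ (Y : ℕ) (H : ℕ → Prop), SynB J Y H → ∀ X A : ℕ, X₀ ≤ X → ∀ Z : ℕ → Finset ℕ,
    (∀ p : ℕ, p.Prime → (p : ℝ) ≤ (X : ℝ) ^ κ → (Z p).card ≤ r ∧ (Z p).card < p ∧ ∀ c ∈ Z p, c < p) →
    ∀ f : ℕ → ℝ, Slow C c₀ (Real.log X ^ B')⁻¹ A X Y f →
    (((Ioc A (A + X)).filter (fun n => (∀ p : ℕ, p.Prime → (p : ℝ) ≤ (X : ℝ) ^ κ → n % p ∉ Z p) ∧
      ∃ k : ℕ, |(k : ℝ) - f n| ≤ C ∧ ¬ H k)).card : ℝ) ≤
    δ * X * ∏ p ∈ (Ioc 0 ⌊(X : ℝ) ^ κ⌋₊).filter Nat.Prime, (1 - ((Z p).card : ℝ) / p) := by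
  obtain ⟨t, ht⟩ : ∃ t : ℕ, t = ⌈1 / c₀⌉₊ := ⟨_, rfl⟩
  have htc : 1 ≤ (t : ℝ) * c₀ := by
    have h1 := Nat.le_ceil (1 / c₀)
    rw [← ht, div_le_iff₀ hc₀] at h1
    exact h1
  have hC16 : (0 : ℝ) < 16 * C + 1 := by positivity
  obtain ⟨B, X₁, hX₁⟩ := Pool.Agent.Y843.HS.fin (J + t + 2) r κ (δ / (16 * C + 1)) hκ (by positivity)
  obtain ⟨X₂, hX₂1, hX₂⟩ := log_small B
  refine ⟨2 * B + 1, max X₁ X₂, fun Y H hH X A hX Z hZ f hf => ?_⟩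
  by_contra hcon
  push Not at hcon
  obtain ⟨S, hS⟩ : ∃ S : Finset ℕ, S = (Ioc A (A + X)).filter
    (fun n => (∀ p : ℕ, p.Prime → (p : ℝ) ≤ (X : ℝ) ^ κ → n % p ∉ Z p) ∧
      ∃ k : ℕ, |(k : ℝ) - f n| ≤ C ∧ ¬ H k) := ⟨_, rfl⟩
  rw [← hS] at hcon
  have hex : ∀ n, ∃ k : ℕ, n ∈ S → |(k : ℝ) - f n| ≤ C ∧ ¬ H k := by
    intro n
    by_cases hn : n ∈ S
    · have h1 := hn
      rw [hS, mem_filter] at h1
      obtain ⟨k, hk⟩ := h1.2.2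
      exact ⟨k, fun _ => hk⟩
    · exact ⟨0, fun h => absurd h hn⟩
  choose k hk using hex
  obtain ⟨S', hS'S, hS'c, hS'e⟩ := arcs C S (fun n => (k n : ℝ) - f n) (fun n hn => (hk n hn).1)
  have hSub : S ⊆ Ioc A (A + X) := by rw [hS]; exact filter_subset _ _
  obtain ⟨a, d, hd1, hd2, hd3⟩ := hX₁ X A ((le_max_left _ _).trans hX) Z hZ S' (hS'S.trans hSub)
    (fun n hn => by
      have h1 := hS'S hn
      rw [hS, mem_filter] at h1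
      exact h1.2.1) (by
      have h1 : δ / (16 * C + 1) * X * Pool.Agent.Y843.HS.VV Z 0 ⌊(X : ℝ) ^ κ⌋₊ =
          (δ * X * ∏ p ∈ (Ioc 0 ⌊(X : ℝ) ^ κ⌋₊).filter Nat.Prime, (1 - ((Z p).card : ℝ) / p)) /
            (16 * C + 1) := by
        have h0 : Pool.Agent.Y843.HS.VV Z 0 ⌊(X : ℝ) ^ κ⌋₊ =
            ∏ p ∈ (Ioc 0 ⌊(X : ℝ) ^ κ⌋₊).filter Nat.Prime, (1 - ((Z p).card : ℝ) / p) := rfl
        rw [h0]
        ring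
      rw [h1, div_le_iff₀ hC16]
      refine hcon.le.trans (hS'c.trans (le_of_eq ?_))
      ring)
  have h1 := hX₂ X ((le_max_right _ _).trans hX) d (Nat.cast_nonneg _) hd2
  have hX1 : (1 : ℝ) ≤ X := by exact_mod_cast hX₂1.trans ((le_max_right _ _).trans hX)
  exact no_ap hH C t c₀ (Real.log X ^ (2 * B + 1))⁻¹ hc₀ htc
    (inv_nonneg.2 (pow_nonneg (Real.log_nonneg hX1) _)) A X f hf k S' (hS'S.trans hSub) (fun n hn => hk n (hS'S hn)) hS'e a d hd1 h1 hd3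

open Classical in
/-- **primes** -/
theorem primes (J C : ℕ) (ε δ c₀ : ℝ) (hε : 0 < ε) (hδ : 0 < δ) (hc₀ : 0 < c₀) :
    ∃ B' x₀ : ℕ, ∀ (Y : ℕ) (H : ℕ → Prop), SynB J Y H → ∀ u y q c : ℕ, x₀ ≤ u + y → 1 ≤ q →
    (q : ℝ) * ((u + y : ℕ) : ℝ) ^ ε ≤ y → c.Coprime q →
    ∀ f : ℕ → ℝ, Slow C c₀ ((Real.log ((u + y : ℕ) : ℝ) ^ B')⁻¹ / q ^ 2) u y Y f →
    (((Ioc u (u + y)).filter (fun p => p.Prime ∧ p ≡ c [MOD q] ∧
      ∃ k : ℕ, |(k : ℝ) - f p| ≤ C ∧ ¬ H k)).card : ℝ) ≤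
    δ * (y / (q.totient * Real.log ((u + y : ℕ) : ℝ))) := by
  obtain ⟨t, ht⟩ : ∃ t : ℕ, t = ⌈1 / c₀⌉₊ := ⟨_, rfl⟩
  have htc : 1 ≤ (t : ℝ) * c₀ := by
    have h1 := Nat.le_ceil (1 / c₀)
    rw [← ht, div_le_iff₀ hc₀] at h1
    exact h1
  have hC16 : (0 : ℝ) < 16 * C + 1 := by positivity
  obtain ⟨B, x₁, hx₁⟩ := Pool.Agent.Y866.PP.prog_interval
      (Pool.Agent.Y866.PP.prog_of_eng Pool.Agent.Y677.RSZ.eng_all) (J + t + 2) ε (δ / (16 * C + 1)) hε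
      (by positivity)
  obtain ⟨x₂, hx₂1, hx₂⟩ := log_small B
  refine ⟨2 * B + 1, max x₁ x₂, fun Y H hH u y q c hx hq hqy hc f hf => ?_⟩
  by_contra hcon
  push Not at hcon
  obtain ⟨S, hS⟩ : ∃ S : Finset ℕ, S = (Ioc u (u + y)).filter (fun p => p.Prime ∧ p ≡ c [MOD q] ∧
      ∃ k : ℕ, |(k : ℝ) - f p| ≤ C ∧ ¬ H k) := ⟨_, rfl⟩
  rw [← hS] at hcon
  have hex : ∀ n, ∃ k : ℕ, n ∈ S → |(k : ℝ) - f n| ≤ C ∧ ¬ H k := by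
    intro n
    by_cases hn : n ∈ S
    · have h1 := hn
      rw [hS, mem_filter] at h1
      obtain ⟨k, hk⟩ := h1.2.2.2
      exact ⟨k, fun _ => hk⟩
    · exact ⟨0, fun h => absurd h hn⟩
  choose k hk using hex
  obtain ⟨S', hS'S, hS'c, hS'e⟩ := arcs C S (fun n => (k n : ℝ) - f n) (fun n hn => (hk n hn).1)
  have hSub : S ⊆ Ioc u (u + y) := by rw [hS]; exact filter_subset _ _
  obtain ⟨a, d, hd1, hd2, hd3⟩ := hx₁ u y q ((le_max_left _ _).trans hx) hq hqy (c : ℤ)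
    (Nat.isCoprime_iff_coprime.2 hc) S' (fun p hp => by
      have h1 := hS'S hp
      rw [hS, mem_filter, mem_Ioc] at h1
      exact ⟨h1.2.1, h1.1.1, h1.1.2, Int.natCast_modEq_iff.2 h1.2.2.1⟩) (by
      have h1 : δ / (16 * C + 1) * (y / (q.totient * Real.log ((u + y : ℕ) : ℝ))) =
          (δ * (y / (q.totient * Real.log ((u + y : ℕ) : ℝ)))) / (16 * C + 1) := by ring
      rw [h1, div_le_iff₀ hC16]
      refine hcon.le.trans (hS'c.trans (le_of_eq ?_))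
      ring)
  have h1 := hx₂ (u + y) ((le_max_right _ _).trans hx) d (Nat.cast_nonneg _) hd2
  have hq0 : (0 : ℝ) < (q : ℝ) ^ 2 := by
    have : (0 : ℝ) < q := by exact_mod_cast hq
    positivity
  have hw1 : (1 : ℝ) ≤ ((u + y : ℕ) : ℝ) := by exact_mod_cast hx₂1.trans ((le_max_right _ _).trans hx)
  have hl0 : 0 ≤ (Real.log ((u + y : ℕ) : ℝ) ^ (2 * B + 1))⁻¹ := inv_nonneg.2 (pow_nonneg (Real.log_nonneg hw1) _)
  refine no_ap hH C t c₀ ((Real.log ((u + y : ℕ) : ℝ) ^ (2 * B + 1))⁻¹ / (q : ℝ) ^ 2) hc₀ htc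
    (div_nonneg hl0 hq0.le) u y f hf k S' (hS'S.trans hSub) (fun n hn => hk n (hS'S hn)) hS'e a (q * d)
    (Nat.mul_pos hq hd1) ?_ hd3
  have e1 : 6 * ((Real.log ((u + y : ℕ) : ℝ) ^ (2 * B + 1))⁻¹ / (q : ℝ) ^ 2) * ((q * d : ℕ) : ℝ) ^ 2 =
      6 * (Real.log ((u + y : ℕ) : ℝ) ^ (2 * B + 1))⁻¹ * (d : ℝ) ^ 2 := by
    push_cast
    field_simp
  rw [e1]
  exact h1

end Pool.Agent.K3h84.SP
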