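import Pool.Agent.K3h84.SP.Main

/-! The sequences `p ^ γ`, `p` prime, `1 < γ < 2` (helper84). -/

set_option autoImplicit false

namespace Pool.Agent.K3h84.SP

open Finset Filter
open Pool.Agent.K3h84.GP

open Classical in
/-- short intervals and progressions -/
theorem pow_primes (J C : ℕ) (γ ε δ : ℝ) (h1 : 1 < γ) (h2 : γ < 2) (hε : 0 < ε) (hδ : 0 < δ) :
    ∃ x₀ : ℕ, ∀ (Y : ℕ) (H : ℕ → Prop), SynB J Y H → ∀ u y q c : ℕ, x₀ ≤ u + y → 1 ≤ q →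
    (q : ℝ) * ((u + y : ℕ) : ℝ) ^ ε ≤ y → (q : ℝ) ^ 2 * ((u + y : ℕ) : ℝ) ^ ε ≤ (u : ℝ) ^ (2 - γ) →
    c.Coprime q → ((u + y : ℕ) : ℝ) ^ γ + C ≤ Y →
    (((Ioc u (u + y)).filter (fun p : ℕ => p.Prime ∧ p ≡ c [MOD q] ∧
      ∃ k : ℕ, |(k : ℝ) - (p : ℝ) ^ γ| ≤ C ∧ ¬ H k)).card : ℝ) ≤
    δ * (y / (q.totient * Real.log ((u + y : ℕ) : ℝ))) := by
  obtain ⟨B, x₁, hx₁⟩ := primes J C ε δ 1 hε hδ one_pos
  have hev : ∀ᶠ x : ℕ in atTop, 2 * (x : ℝ) ^ (-ε) ≤ (Real.log x ^ B)⁻¹ ∧ (C : ℝ) + 1 ≤ (x : ℝ) ^ ε := by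
    have e2 := ((tendsto_rpow_atTop hε).comp tendsto_natCast_atTop_atTop).eventually_ge_atTop ((C : ℝ) + 1)
    have e3 := (isLittleO_log_rpow_rpow_atTop (s := ε) (B : ℝ) hε).bound (c := 1 / 2) (by norm_num)
    have e4 := tendsto_natCast_atTop_atTop.eventually e3
    filter_upwards [e2, e4, eventually_ge_atTop 3] with x e2 e4 e5
    refine ⟨?_, e2⟩
    have hx3 : (3 : ℝ) ≤ x := by exact_mod_cast e5
    have hl : 0 < Real.log (x : ℝ) := Real.log_pos (by linarith)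
    have hxε : 0 < (x : ℝ) ^ ε := Real.rpow_pos_of_pos (by linarith) _
    have hlB : 0 < Real.log (x : ℝ) ^ B := pow_pos hl _
    rw [Real.rpow_natCast, Real.norm_of_nonneg hlB.le, Real.norm_of_nonneg hxε.le] at e4
    rw [Real.rpow_neg (by linarith), ← div_eq_mul_inv, div_le_iff₀ hxε, inv_mul_eq_div, le_div_iff₀ hlB]
    linarith
  obtain ⟨x₂, hx₂⟩ := eventually_atTop.1 hev
  refine ⟨max x₁ (max x₂ 1), fun Y H hH u y q c hx hq hqy hqu hc hY => ?_⟩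
  obtain ⟨w, hw⟩ : ∃ w : ℕ, w = u + y := ⟨_, rfl⟩
  rw [← hw] at hx hqy hqu hY
  obtain ⟨g1, g2⟩ := hx₂ w ((le_max_left _ _).trans ((le_max_right _ _).trans hx))
  have hw1 : 1 ≤ w := (le_max_right _ _).trans ((le_max_right _ _).trans hx)
  have hwr : (1 : ℝ) ≤ w := by exact_mod_cast hw1
  have hq1 : (1 : ℝ) ≤ q := by exact_mod_cast hq
  have hwε : 0 < (w : ℝ) ^ ε := Real.rpow_pos_of_pos (by linarith) _
  have hC0 : (0 : ℝ) ≤ C := Nat.cast_nonneg C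
  -- u is large
  have hu1 : 1 ≤ u := by
    rcases Nat.eq_zero_or_pos u with h | h
    · exfalso
      have h3 : (2 : ℝ) - γ ≠ 0 := by
        have h4 : (0 : ℝ) < 2 - γ := by linarith
        exact h4.ne'
      rw [h, Nat.cast_zero, Real.zero_rpow h3] at hqu
      have : 0 < (q : ℝ) ^ 2 * (w : ℝ) ^ ε := by positivity
      linarith
    · exact h
  have hur : (1 : ℝ) ≤ u := by exact_mod_cast hu1
  have hu0 : (0 : ℝ) < u := by linarith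
  have hq2 : (1 : ℝ) ≤ (q : ℝ) ^ 2 := one_le_pow₀ hq1
  have hq20 : (0 : ℝ) < (q : ℝ) ^ 2 := by linarith
  have huC : (C : ℝ) + 1 ≤ u := by
    calc (C : ℝ) + 1 ≤ (w : ℝ) ^ ε := g2
      _ ≤ (q : ℝ) ^ 2 * (w : ℝ) ^ ε := le_mul_of_one_le_left hwε.le hq2
      _ ≤ (u : ℝ) ^ (2 - γ) := hqu
      _ ≤ (u : ℝ) ^ (1 : ℝ) := Real.rpow_le_rpow_of_exponent_le hur (by linarith)
      _ = u := Real.rpow_one _
  have key := hx₁ Y H hH u y q c (by rw [← hw]; exact (le_max_left _ _).trans hx) hq (by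
    rw [← hw]
    exact hqy) hc (fun n => (n : ℝ) ^ γ) {
    pos := fun n hn _ => by
      have hn1 : (u : ℝ) ≤ n := by exact_mod_cast hn.le
      have h3 : (n : ℝ) ≤ (n : ℝ) ^ γ := by
        calc (n : ℝ) = (n : ℝ) ^ (1 : ℝ) := (Real.rpow_one _).symm
          _ ≤ (n : ℝ) ^ γ := Real.rpow_le_rpow_of_exponent_le (by linarith) h1.le
      show (C : ℝ) + 1 ≤ (n : ℝ) ^ γ
      linarith
    mono := Or.inl fun n hn _ => pow_inc γ h1.le n (by omega)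
    sec := fun n hn _ => by
      have hn1 : (u : ℝ) ≤ n := by exact_mod_cast hn.le
      have h3 := pow_sec γ h1 h2 n (by omega)
      have h4 : (n : ℝ) ^ (γ - 2) ≤ (u : ℝ) ^ (γ - 2) := Real.rpow_le_rpow_of_nonpos hu0 hn1 (by linarith)
      have h5 : (q : ℝ) ^ 2 * (u : ℝ) ^ (γ - 2) ≤ (w : ℝ) ^ (-ε) := by
        rw [Real.rpow_neg (by linarith), ← one_div, le_div_iff₀ hwε]
        have h6 : (u : ℝ) ^ (γ - 2) * (u : ℝ) ^ (2 - γ) = 1 := by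
          rw [← Real.rpow_add hu0]
          have : γ - 2 + (2 - γ) = 0 := by ring
          rw [this, Real.rpow_zero]
        have h7 : 0 < (u : ℝ) ^ (γ - 2) := Real.rpow_pos_of_pos hu0 _
        calc (q : ℝ) ^ 2 * (u : ℝ) ^ (γ - 2) * (w : ℝ) ^ ε = (u : ℝ) ^ (γ - 2) * ((q : ℝ) ^ 2 * (w : ℝ) ^ ε) := by ring
          _ ≤ (u : ℝ) ^ (γ - 2) * (u : ℝ) ^ (2 - γ) := mul_le_mul_of_nonneg_left hqu h7.le
          _ = 1 := h6
      rw [le_div_iff₀ hq20, ← hw]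
      calc |((n + 2 : ℕ) : ℝ) ^ γ - 2 * ((n + 1 : ℕ) : ℝ) ^ γ + (n : ℝ) ^ γ| * (q : ℝ) ^ 2
          ≤ (2 * (n : ℝ) ^ (γ - 2)) * (q : ℝ) ^ 2 := mul_le_mul_of_nonneg_right h3 hq20.le
        _ ≤ (2 * (u : ℝ) ^ (γ - 2)) * (q : ℝ) ^ 2 := mul_le_mul_of_nonneg_right (by linarith) hq20.le
        _ = 2 * ((q : ℝ) ^ 2 * (u : ℝ) ^ (γ - 2)) := by ring
        _ ≤ 2 * (w : ℝ) ^ (-ε) := by linarith
        _ ≤ _ := g1
    size := fun n hn hn2 => by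
      have h3 : (n : ℝ) ^ γ ≤ (w : ℝ) ^ γ := by
        apply Real.rpow_le_rpow (Nat.cast_nonneg _) _ (by linarith)
        exact_mod_cast (by omega : n ≤ w)
      show (n : ℝ) ^ γ + C ≤ Y
      linarith }
  exact key

open Classical in
/-- all primes up to `X` -/
theorem pow_primes_all (J C : ℕ) (γ δ : ℝ) (h1 : 1 < γ) (h2 : γ < 2) (hδ : 0 < δ) :
    ∃ X₀ : ℕ, ∀ (Y : ℕ) (H : ℕ → Prop), SynB J Y H → ∀ X : ℕ, X₀ ≤ X → (X : ℝ) ^ γ + C ≤ Y →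
    (((Ioc 0 X).filter (fun p : ℕ => p.Prime ∧ ∃ k : ℕ, |(k : ℝ) - (p : ℝ) ^ γ| ≤ C ∧ ¬ H k)).card : ℝ) ≤
      δ * (X / Real.log X) := by
  obtain ⟨ε, hεd⟩ : ∃ ε : ℝ, ε = (2 - γ) / 2 := ⟨_, rfl⟩
  have hε : 0 < ε := by rw [hεd]; linarith
  obtain ⟨x₀, hx₀⟩ := pow_primes J C γ ε (δ / 2) h1 h2 hε (by positivity)
  have hlog : ∀ᶠ x : ℕ in atTop, Real.log x ≤ δ / 4 * (x : ℝ) ^ (1 / 2 : ℝ) := by
    have h3 := (isLittleO_log_rpow_atTop (r := 1 / 2) (by norm_num)).bound (c := δ / 4) (by positivity)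
    have h4 := tendsto_natCast_atTop_atTop.eventually h3
    filter_upwards [h4, eventually_ge_atTop 1] with x hx hx1
    have hxr : (1 : ℝ) ≤ x := by exact_mod_cast hx1
    rw [Real.norm_of_nonneg (Real.log_nonneg hxr), Real.norm_of_nonneg (by positivity)] at hx
    exact hx
  obtain ⟨x₁, hx₁⟩ := eventually_atTop.1 hlog
  refine ⟨max x₀ (max x₁ 36), fun Y H hH X hX hY => ?_⟩
  have hX0 : x₀ ≤ X := (le_max_left _ _).trans hX
  have hX1 : x₁ ≤ X := (le_max_left _ _).trans ((le_max_right _ _).trans hX)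
  have hX36 : 36 ≤ X := (le_max_right _ _).trans ((le_max_right _ _).trans hX)
  obtain ⟨s, hs⟩ : ∃ s : ℕ, s = Nat.sqrt X := ⟨_, rfl⟩
  have hs1 : s * s ≤ X := by rw [hs]; exact Nat.sqrt_le X
  have hs2 : X < (s + 1) * (s + 1) := by rw [hs]; exact Nat.lt_succ_sqrt X
  have hs6 : 6 ≤ s := by
    by_contra hcon
    push Not at hcon
    have : (s + 1) * (s + 1) ≤ 6 * 6 := Nat.mul_le_mul (by omega) (by omega)
    omega
  obtain ⟨u, hu⟩ : ∃ u : ℕ, u = s + 1 := ⟨_, rfl⟩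
  obtain ⟨y, hy⟩ : ∃ y : ℕ, y = X - u := ⟨_, rfl⟩
  have h2u : 2 * u ≤ X := by
    have : 6 * s ≤ s * s := Nat.mul_le_mul_right _ hs6
    omega
  have huy : u + y = X := by omega
  have hyu : u ≤ y := by omega
  have hXr : (36 : ℝ) ≤ X := by exact_mod_cast hX36
  have hX0r : (0 : ℝ) < X := by linarith
  have hsqu : (X : ℝ) ^ (1 / 2 : ℝ) ≤ u := by
    have h3 : (X : ℝ) ≤ (u : ℝ) ^ 2 := by
      have : X ≤ u ^ 2 := by rw [hu, sq]; exact hs2.le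
      exact_mod_cast this
    calc (X : ℝ) ^ (1 / 2 : ℝ) ≤ ((u : ℝ) ^ 2) ^ (1 / 2 : ℝ) := Real.rpow_le_rpow hX0r.le h3 (by norm_num)
      _ = u := by
        rw [← Real.sqrt_eq_rpow, Real.sqrt_sq (Nat.cast_nonneg _)]
  have husq : (u : ℝ) ≤ 2 * (X : ℝ) ^ (1 / 2 : ℝ) := by
    have h3 : ((s : ℕ) : ℝ) ≤ (X : ℝ) ^ (1 / 2 : ℝ) := by
      rw [← Real.sqrt_eq_rpow]
      apply Real.le_sqrt_of_sq_le
      have : s ^ 2 ≤ X := by rw [sq]; exact hs1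
      exact_mod_cast this
    have h4 : (u : ℝ) = s + 1 := by rw [hu]; push_cast; ring
    have h5 : (6 : ℝ) ≤ s := by exact_mod_cast hs6
    linarith
  have hXε : (X : ℝ) ^ ε ≤ (X : ℝ) ^ (1 / 2 : ℝ) :=
    Real.rpow_le_rpow_of_exponent_le (by linarith) (by rw [hεd]; linarith)
  have key := hx₀ Y H hH u y 1 1 (by omega) le_rfl (by
    rw [huy, Nat.cast_one, one_mul]
    exact hXε.trans (hsqu.trans (by exact_mod_cast hyu))) (by
    rw [huy, Nat.cast_one, one_pow, one_mul]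
    calc (X : ℝ) ^ ε = ((X : ℝ) ^ (1 / 2 : ℝ)) ^ (2 - γ) := by
          rw [← Real.rpow_mul hX0r.le, hεd]
          congr 1
          ring
      _ ≤ (u : ℝ) ^ (2 - γ) := Real.rpow_le_rpow (by positivity) hsqu (by linarith)) (by simp)
    (by rw [huy]; exact hY)
  rw [huy, Nat.totient_one, Nat.cast_one, one_mul] at key
  have hsub : (Ioc 0 X).filter (fun p : ℕ => p.Prime ∧ ∃ k : ℕ, |(k : ℝ) - (p : ℝ) ^ γ| ≤ C ∧ ¬ H k) ⊆
      Ioc 0 u ∪ (Ioc u X).filter (fun p : ℕ => p.Prime ∧ p ≡ 1 [MOD 1] ∧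
        ∃ k : ℕ, |(k : ℝ) - (p : ℝ) ^ γ| ≤ C ∧ ¬ H k) := by
    intro p hp
    rw [mem_filter, mem_Ioc] at hp
    rw [mem_union, mem_filter, mem_Ioc, mem_Ioc]
    rcases Nat.lt_or_ge u p with h | h
    · exact Or.inr ⟨⟨h, hp.1.2⟩, hp.2.1, Nat.modEq_one, hp.2.2⟩
    · exact Or.inl ⟨hp.1.1, h⟩
  have hcard : (((Ioc 0 X).filter (fun p : ℕ => p.Prime ∧ ∃ k : ℕ, |(k : ℝ) - (p : ℝ) ^ γ| ≤ C ∧ ¬ H k)).card : ℝ) ≤
      u + (((Ioc u X).filter (fun p : ℕ => p.Prime ∧ p ≡ 1 [MOD 1] ∧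
        ∃ k : ℕ, |(k : ℝ) - (p : ℝ) ^ γ| ≤ C ∧ ¬ H k)).card : ℝ) := by
    have h3 := (card_le_card hsub).trans (card_union_le _ _)
    rw [Nat.card_Ioc, Nat.sub_zero] at h3
    exact_mod_cast h3
  have hl := hx₁ X hX1
  have hlog0 : 0 < Real.log X := Real.log_pos (by linarith)
  have h3 : (u : ℝ) ≤ δ / 2 * (X / Real.log X) := by
    rw [← mul_div_assoc, le_div_iff₀ hlog0]
    have h4 : (X : ℝ) = (X : ℝ) ^ (1 / 2 : ℝ) * (X : ℝ) ^ (1 / 2 : ℝ) := by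
      rw [← Real.rpow_add hX0r]
      norm_num
    calc (u : ℝ) * Real.log X ≤ (2 * (X : ℝ) ^ (1 / 2 : ℝ)) * (δ / 4 * (X : ℝ) ^ (1 / 2 : ℝ)) :=
          mul_le_mul husq hl hlog0.le (by positivity)
      _ = δ / 2 * ((X : ℝ) ^ (1 / 2 : ℝ) * (X : ℝ) ^ (1 / 2 : ℝ)) := by ring
      _ = δ / 2 * X := by rw [← h4]
  have h4 : δ / 2 * (y / Real.log X) ≤ δ / 2 * (X / Real.log X) := by
    apply mul_le_mul_of_nonneg_left _ (by positivity)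
    apply div_le_div_of_nonneg_right _ hlog0.le
    exact_mod_cast (by omega : y ≤ X)
  linarith

end Pool.Agent.K3h84.SP
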